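import Mathlib

/-!
# MP_a3f2aa_co: partitions into indivisible dominating sets interpolate

For every finite graph `G` and every `k` with `ad(G) ≤ k ≤ d(G)` the vertex set can be partitioned
into exactly `k` indivisible dominating sets.

Idea.  Let `dn X` be the maximal number of pairwise disjoint dominating subsets of `X`.  Let
`P = (P_1, …, P_m)` be a partition into `m = ad(G)` indivisible dominating sets (so `dn P_i = 1`).
Start with a partition `Q` into `m` dominating sets obtained by merging the classes of a domatic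
partition, so that `∑ dn Q_i ≥ d(G)`.  As long as `∑ dn Q_i > m`, some class has `dn Q_i ≥ 2`, hence
contains a vertex `v ∉ P_i`; move `v` to the class `Q_j` with `v ∈ P_j`.  All classes stay
dominating, and `∑ dn` drops by at most one, while the agreement with `P` grows.
-/

namespace Pool.Agent.Results.MP_a3f2aa_co.Interpolation

set_option linter.unusedSectionVars false

open Finset

section Abstract

variable {V : Type*} [Fintype V] [DecidableEq V] (Dm : Finset V → Prop)

open Classical in
/-- families of pairwise disjoint members of `Dm` inside `X` -/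
noncomputable def packs (X : Finset V) : Finset (Finset (Finset V)) :=
  (X.powerset.powerset).filter
    (fun P => (∀ A ∈ P, ∀ B ∈ P, A ≠ B → Disjoint A B) ∧ ∀ D ∈ P, Dm D)

/-- the packing number -/
noncomputable def dn (X : Finset V) : ℕ := (packs Dm X).sup card

variable {Dm}

lemma mem_packs {X : Finset V} {P : Finset (Finset V)} :
    P ∈ packs Dm X ↔ (∀ A ∈ P, A ⊆ X) ∧ (∀ A ∈ P, ∀ B ∈ P, A ≠ B → Disjoint A B) ∧
      ∀ D ∈ P, Dm D := by
  classical
  unfold packs
  rw [Finset.mem_filter, Finset.mem_powerset]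
  constructor
  · rintro ⟨h, h1⟩
    exact ⟨fun A hA => Finset.mem_powerset.1 (h hA), h1⟩
  · rintro ⟨h, h1⟩
    exact ⟨fun A hA => Finset.mem_powerset.2 (h A hA), h1⟩

lemma le_dn {X : Finset V} {P : Finset (Finset V)} (h : P ∈ packs Dm X) : P.card ≤ dn Dm X :=
  Finset.le_sup (f := card) h

lemma exists_pack (X : Finset V) : ∃ P ∈ packs Dm X, P.card = dn Dm X := by
  have hne : (packs Dm X).Nonempty := ⟨∅, by rw [mem_packs]; simp⟩
  obtain ⟨P, hP, h⟩ := Finset.exists_mem_eq_sup (packs Dm X) hne card
  exact ⟨P, hP, h.symm⟩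

lemma dn_mono {X Y : Finset V} (h : X ⊆ Y) : dn Dm X ≤ dn Dm Y := by
  obtain ⟨P, hP, hc⟩ := exists_pack (Dm := Dm) X
  rw [← hc]
  apply le_dn
  rw [mem_packs] at hP ⊢
  exact ⟨fun A hA => (hP.1 A hA).trans h, hP.2⟩

lemma dn_erase (X : Finset V) (v : V) : dn Dm X ≤ dn Dm (X.erase v) + 1 := by
  obtain ⟨P, hP, hc⟩ := exists_pack (Dm := Dm) X
  rw [mem_packs] at hP
  obtain ⟨h1, h2, h3⟩ := hP
  have hsplit : (P.filter (fun A => v ∈ A)).card + (P.filter (fun A => ¬ v ∈ A)).card = P.card :=
    Finset.card_filter_add_card_filter_not _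
  have hle1 : (P.filter (fun A => v ∈ A)).card ≤ 1 := by
    rw [Finset.card_le_one]
    intro A hA B hB
    rw [Finset.mem_filter] at hA hB
    by_contra hne
    exact Finset.disjoint_left.1 (h2 A hA.1 B hB.1 hne) hA.2 hB.2
  have hle2 : (P.filter (fun A => ¬ v ∈ A)).card ≤ dn Dm (X.erase v) := by
    apply le_dn
    rw [mem_packs]
    refine ⟨?_, ?_, ?_⟩
    · intro A hA
      rw [Finset.mem_filter] at hA
      intro x hx
      rw [Finset.mem_erase]
      refine ⟨?_, h1 A hA.1 hx⟩
      rintro rfl
      exact hA.2 hx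
    · intro A hA B hB hne
      rw [Finset.mem_filter] at hA hB
      exact h2 A hA.1 B hB.1 hne
    · intro D hD
      rw [Finset.mem_filter] at hD
      exact h3 D hD.1
  omega

lemma dn_pos {X : Finset V} (h : Dm X) : 1 ≤ dn Dm X := by
  have : ({X} : Finset (Finset V)) ∈ packs Dm X := by
    rw [mem_packs]
    refine ⟨by simp, ?_, by simpa using h⟩
    intro A hA B hB hne
    rw [Finset.mem_singleton] at hA hB
    exact absurd (hA.trans hB.symm) hne
  have := le_dn this
  simpa using this

lemma dom_of_dn_pos (hm : ∀ A B : Finset V, A ⊆ B → Dm A → Dm B) {X : Finset V}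
    (h : 1 ≤ dn Dm X) : Dm X := by
  obtain ⟨P, hP, hc⟩ := exists_pack (Dm := Dm) X
  rw [mem_packs] at hP
  have : P.Nonempty := by
    rw [← Finset.card_pos]; omega
  obtain ⟨D, hD⟩ := this
  exact hm D X (hP.1 D hD) (hP.2.2 D hD)

lemma dn_super (h0 : ¬ Dm ∅) {A B : Finset V} (hAB : Disjoint A B) :
    dn Dm A + dn Dm B ≤ dn Dm (A ∪ B) := by
  obtain ⟨P, hP, hc⟩ := exists_pack (Dm := Dm) A
  obtain ⟨Q, hQ, hd⟩ := exists_pack (Dm := Dm) B
  rw [mem_packs] at hP hQ
  obtain ⟨h1, h2, h3⟩ := hP
  obtain ⟨k1, k2, k3⟩ := hQ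
  have hdisj : Disjoint P Q := by
    rw [Finset.disjoint_left]
    intro D hDP hDQ
    have : D ⊆ ∅ := by
      intro x hx
      exact absurd (k1 D hDQ hx) (Finset.disjoint_left.1 hAB (h1 D hDP hx))
    rw [Finset.subset_empty] at this
    subst this
    exact h0 (h3 _ hDP)
  rw [← hc, ← hd, ← Finset.card_union_of_disjoint hdisj]
  apply le_dn
  rw [mem_packs]
  refine ⟨?_, ?_, ?_⟩
  · intro D hD
    rcases Finset.mem_union.1 hD with h | h
    · exact (h1 D h).trans Finset.subset_union_left
    · exact (k1 D h).trans Finset.subset_union_right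
  · intro D hD E hE hne
    rcases Finset.mem_union.1 hD with h | h <;> rcases Finset.mem_union.1 hE with h' | h'
    · exact h2 D h E h' hne
    · exact Finset.disjoint_of_subset_left (h1 D h) (Finset.disjoint_of_subset_right (k1 E h') hAB)
    · exact (Finset.disjoint_of_subset_left (h1 E h')
        (Finset.disjoint_of_subset_right (k1 D h) hAB)).symm
    · exact k2 D h E h' hne
  · intro D hD
    rcases Finset.mem_union.1 hD with h | h
    · exact h3 D h
    · exact k3 D h

/-- refinement of a member of `Dm` into the maximal number of members of `Dm` -/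
lemma exists_refine (hm : ∀ A B : Finset V, A ⊆ B → Dm A → Dm B) (h0 : ¬ Dm ∅)
    {X : Finset V} (hX : Dm X) :
    ∃ R : Finset (Finset V), R.card = dn Dm X ∧ (∀ D ∈ R, D ⊆ X) ∧
      (∀ A ∈ R, ∀ B ∈ R, A ≠ B → Disjoint A B) ∧ (∀ x ∈ X, ∃ D ∈ R, x ∈ D) ∧
      (∀ D ∈ R, Dm D ∧ dn Dm D = 1) := by
  obtain ⟨P, hP, hc⟩ := exists_pack (Dm := Dm) X
  have hP' := hP
  rw [mem_packs] at hP
  obtain ⟨h1, h2, h3⟩ := hP
  have hpos := dn_pos hX
  have : P.Nonempty := by
    rw [← Finset.card_pos]; omega
  obtain ⟨D0, hD0⟩ := this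
  set U : Finset V := (P.erase D0).sup id with hU
  have hUmem : ∀ x, x ∈ U ↔ ∃ D ∈ P.erase D0, x ∈ D := by
    intro x
    rw [hU, Finset.mem_sup]
    simp
  have hD0sub : D0 ⊆ X \ U := by
    intro x hx
    rw [Finset.mem_sdiff]
    refine ⟨h1 D0 hD0 hx, ?_⟩
    intro hxU
    obtain ⟨D, hD, hxD⟩ := (hUmem x).1 hxU
    rw [Finset.mem_erase] at hD
    exact Finset.disjoint_left.1 (h2 D hD.2 D0 hD0 hD.1) hxD hx
  have hnew : Dm (X \ U) := hm _ _ hD0sub (h3 D0 hD0)
  have hnotin : X \ U ∉ P.erase D0 := by
    intro h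
    have hne : X \ U ≠ ∅ := by
      intro he
      rw [he] at hnew
      exact h0 hnew
    obtain ⟨x, hx⟩ := Finset.nonempty_iff_ne_empty.2 hne
    have : x ∈ U := (hUmem x).2 ⟨_, h, hx⟩
    exact (Finset.mem_sdiff.1 hx).2 this
  set R : Finset (Finset V) := insert (X \ U) (P.erase D0) with hR
  have hRcard : R.card = dn Dm X := by
    rw [hR, Finset.card_insert_of_notMem hnotin, Finset.card_erase_of_mem hD0, hc]
    omega
  have hsub : ∀ D ∈ R, D ⊆ X := by
    intro D hD
    rcases Finset.mem_insert.1 hD with h | h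
    · rw [h]; exact Finset.sdiff_subset
    · exact h1 D (Finset.mem_of_mem_erase h)
  have hdisj0 : ∀ D ∈ P.erase D0, Disjoint (X \ U) D := by
    intro D hD
    rw [Finset.disjoint_left]
    intro x hx hxD
    exact (Finset.mem_sdiff.1 hx).2 ((hUmem x).2 ⟨D, hD, hxD⟩)
  have hdisj : ∀ A ∈ R, ∀ B ∈ R, A ≠ B → Disjoint A B := by
    intro A hA B hB hne
    rcases Finset.mem_insert.1 hA with h | h <;> rcases Finset.mem_insert.1 hB with h' | h'
    · exact absurd (h.trans h'.symm) hne
    · rw [h]; exact hdisj0 B h'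
    · rw [h']; exact (hdisj0 A h).symm
    · exact h2 A (Finset.mem_of_mem_erase h) B (Finset.mem_of_mem_erase h') hne
  have hdom : ∀ D ∈ R, Dm D := by
    intro D hD
    rcases Finset.mem_insert.1 hD with h | h
    · rw [h]; exact hnew
    · exact h3 D (Finset.mem_of_mem_erase h)
  refine ⟨R, hRcard, hsub, hdisj, ?_, ?_⟩
  · intro x hx
    by_cases hxU : x ∈ U
    · obtain ⟨D, hD, hxD⟩ := (hUmem x).1 hxU
      exact ⟨D, Finset.mem_insert_of_mem hD, hxD⟩
    · exact ⟨X \ U, Finset.mem_insert_self _ _, Finset.mem_sdiff.2 ⟨hx, hxU⟩⟩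
  · intro D hD
    refine ⟨hdom D hD, le_antisymm ?_ (dn_pos (hdom D hD))⟩
    have e1 : (R.erase D).card ≤ dn Dm (X \ D) := by
      apply le_dn
      rw [mem_packs]
      refine ⟨?_, ?_, ?_⟩
      · intro A hA
        rw [Finset.mem_erase] at hA
        intro x hx
        rw [Finset.mem_sdiff]
        exact ⟨hsub A hA.2 hx, fun hxD => Finset.disjoint_left.1 (hdisj A hA.2 D hD hA.1) hx hxD⟩
      · intro A hA B hB hne
        exact hdisj A (Finset.mem_of_mem_erase hA) B (Finset.mem_of_mem_erase hB) hne
      · intro A hA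
        exact hdom A (Finset.mem_of_mem_erase hA)
    have e2 := dn_super (Dm := Dm) h0 (A := X \ D) (B := D) Finset.sdiff_disjoint
    rw [Finset.sdiff_union_of_subset (hsub D hD)] at e2
    rw [Finset.card_erase_of_mem hD, hRcard] at e1
    omega

/-- the class of colour `i` -/
def cl {m : ℕ} (c : V → Fin m) (i : Fin m) : Finset V := univ.filter (fun v => c v = i)

lemma mem_cl {m : ℕ} {c : V → Fin m} {i : Fin m} {v : V} : v ∈ cl c i ↔ c v = i := by
  simp [cl]

/-- discrete intermediate value argument -/
lemma walk (hm : ∀ A B : Finset V, A ⊆ B → Dm A → Dm B)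
    {m k : ℕ} (P : V → Fin m) (hP : ∀ i, dn Dm (cl P i) ≤ 1) (hmk : m ≤ k) :
    ∀ (N : ℕ) (Q : V → Fin m), (univ.filter (fun v => Q v ≠ P v)).card ≤ N →
      (∀ i, Dm (cl Q i)) → k ≤ ∑ i, dn Dm (cl Q i) →
      ∃ Q' : V → Fin m, (∀ i, Dm (cl Q' i)) ∧ ∑ i, dn Dm (cl Q' i) = k := by
  intro N
  induction N with
  | zero =>
    intro Q hN hQ hk
    have hQP : Q = P := by
      funext v
      by_contra hne
      have : v ∈ univ.filter (fun v => Q v ≠ P v) := by simp [hne]
      have := Finset.card_pos.2 ⟨v, this⟩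
      omega
    refine ⟨Q, hQ, le_antisymm ?_ hk⟩
    calc ∑ i, dn Dm (cl Q i) ≤ ∑ _i : Fin m, 1 := by
          apply Finset.sum_le_sum; intro i _; rw [hQP]; exact hP i
      _ = m := by simp
      _ ≤ k := hmk
  | succ N ih =>
    intro Q hN hQ hk
    by_cases heq : ∑ i, dn Dm (cl Q i) = k
    · exact ⟨Q, hQ, heq⟩
    have hgt : m < ∑ i, dn Dm (cl Q i) := by omega
    have hex : ∃ i, 2 ≤ dn Dm (cl Q i) := by
      by_contra hno
      push Not at hno
      have : ∑ i, dn Dm (cl Q i) ≤ ∑ _i : Fin m, 1 := by
        apply Finset.sum_le_sum; intro i _; have := hno i; omega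
      simp at this
      omega
    obtain ⟨i, hi⟩ := hex
    have hnsub : ¬ cl Q i ⊆ cl P i := by
      intro hs
      have := (dn_mono (Dm := Dm) hs).trans (hP i)
      omega
    rw [Finset.not_subset] at hnsub
    obtain ⟨v, hv1, hv2⟩ := hnsub
    rw [mem_cl] at hv1 hv2
    have hne : P v ≠ i := hv2
    set Q1 : V → Fin m := Function.update Q v (P v) with hQ1
    have hcli : cl Q1 i = (cl Q i).erase v := by
      ext w
      rw [Finset.mem_erase, mem_cl, mem_cl, hQ1]
      by_cases hw : w = v
      · subst hw; simp [hne]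
      · simp [hw]
    have hclj : ∀ j, j ≠ i → cl Q j ⊆ cl Q1 j := by
      intro j hj w hw
      rw [mem_cl] at hw ⊢
      rw [hQ1]
      by_cases hwv : w = v
      · subst hwv; exact absurd (hw.symm.trans hv1) hj
      · rw [Function.update_of_ne hwv]; exact hw
    have hle : ∀ j, dn Dm (cl Q j) ≤ dn Dm (cl Q1 j) + if j = i then 1 else 0 := by
      intro j
      by_cases hj : j = i
      · subst hj; rw [hcli]; simpa using dn_erase (Dm := Dm) (cl Q j) v
      · simp only [hj, if_false, add_zero]; exact dn_mono (hclj j hj)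
    have hsum : ∑ j, dn Dm (cl Q j) ≤ ∑ j, dn Dm (cl Q1 j) + 1 := by
      calc ∑ j, dn Dm (cl Q j) ≤ ∑ j, (dn Dm (cl Q1 j) + if j = i then 1 else 0) :=
            Finset.sum_le_sum (fun j _ => hle j)
        _ = _ := by rw [Finset.sum_add_distrib]; simp
    apply ih Q1
    · have hsub : univ.filter (fun w => Q1 w ≠ P w) ⊆
          (univ.filter (fun w => Q w ≠ P w)).erase v := by
        intro w hw
        rw [Finset.mem_filter] at hw
        rw [Finset.mem_erase, Finset.mem_filter]
        have hwv : w ≠ v := by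
          rintro rfl
          apply hw.2; rw [hQ1]; simp
        refine ⟨hwv, Finset.mem_univ _, ?_⟩
        have := hw.2
        rw [hQ1, Function.update_of_ne hwv] at this
        exact this
      have hmem : v ∈ univ.filter (fun w => Q w ≠ P w) := by
        rw [Finset.mem_filter]; exact ⟨Finset.mem_univ _, by rw [hv1]; exact fun h => hne h.symm⟩
      have := Finset.card_le_card hsub
      rw [Finset.card_erase_of_mem hmem] at this
      omega
    · intro j
      by_cases hj : j = i
      · subst hj
        rw [hcli]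
        apply dom_of_dn_pos hm
        have := dn_erase (Dm := Dm) (cl Q j) v
        omega
      · exact hm _ _ (hclj j hj) (hQ j)
    · omega

end Abstract

/-! ### graphs -/

variable {V : Type*} [Fintype V] [DecidableEq V]

/-- `D` is dominating: every vertex outside `D` has a neighbour in `D`. -/
def IsDominating (G : SimpleGraph V) (D : Finset V) : Prop :=
  ∀ v, v ∉ D → ∃ u ∈ D, G.Adj v u

/-- `D` is an indivisible dominating set: it is dominating and is not the union of two disjoint
nonempty dominating sets. -/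
def IsIndivisible (G : SimpleGraph V) (D : Finset V) : Prop :=
  IsDominating G D ∧ ¬ ∃ A B : Finset V, D = A ∪ B ∧ Disjoint A B ∧ A.Nonempty ∧ B.Nonempty ∧
    IsDominating G A ∧ IsDominating G B

/-- The domatic number: the largest number of classes of a partition of the vertex set into
dominating sets. -/
noncomputable def domatic (G : SimpleGraph V) : ℕ :=
  sSup {m | ∃ P : Finpartition (univ : Finset V), P.parts.card = m ∧
    ∀ D ∈ P.parts, IsDominating G D}

/-- The adomatic number: the smallest number of classes of a partition of the vertex set into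
indivisible dominating sets. -/
noncomputable def adomatic (G : SimpleGraph V) : ℕ :=
  sInf {m | ∃ P : Finpartition (univ : Finset V), P.parts.card = m ∧
    ∀ D ∈ P.parts, IsIndivisible G D}

lemma isDominating_mono (G : SimpleGraph V) (A B : Finset V) (h : A ⊆ B)
    (hA : IsDominating G A) : IsDominating G B := by
  intro v hv
  obtain ⟨u, hu, ha⟩ := hA v (fun h' => hv (h h'))
  exact ⟨u, h hu, ha⟩

lemma not_isDominating_empty [Nonempty V] (G : SimpleGraph V) : ¬ IsDominating G ∅ := by
  intro h
  obtain ⟨u, hu, _⟩ := h (Classical.arbitrary V) (by simp)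
  simp at hu

lemma dn_le_one_of_indivisible [Nonempty V] {G : SimpleGraph V} {D : Finset V}
    (h : IsIndivisible G D) : dn (IsDominating G) D ≤ 1 := by
  by_contra hlt
  push Not at hlt
  obtain ⟨P, hP, hc⟩ := exists_pack (Dm := IsDominating G) D
  rw [mem_packs] at hP
  obtain ⟨h1, h2, h3⟩ := hP
  have : 1 < P.card := by omega
  rw [Finset.one_lt_card] at this
  obtain ⟨A, hA, B, hB, hne⟩ := this
  apply h.2
  have hBsub : B ⊆ D \ A := by
    intro x hx
    rw [Finset.mem_sdiff]
    exact ⟨h1 B hB hx, fun hxA => Finset.disjoint_left.1 (h2 A hA B hB hne) hxA hx⟩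
  have hne' : ∀ S : Finset V, IsDominating G S → S.Nonempty := by
    intro S hS
    rw [Finset.nonempty_iff_ne_empty]
    rintro rfl
    exact not_isDominating_empty G hS
  have hB' := isDominating_mono G _ _ hBsub (h3 B hB)
  refine ⟨A, D \ A, ?_, Finset.disjoint_sdiff, hne' A (h3 A hA), hne' _ hB', h3 A hA, hB'⟩
  rw [Finset.union_sdiff_of_subset (h1 A hA)]

lemma indivisible_of_dn_one {G : SimpleGraph V} {D : Finset V}
    (hD : IsDominating G D) (h : dn (IsDominating G) D = 1) : IsIndivisible G D := by
  refine ⟨hD, ?_⟩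
  rintro ⟨A, B, rfl, hdis, hAn, hBn, hA, hB⟩
  have hne : A ≠ B := by
    rintro rfl
    rw [disjoint_self] at hdis
    exact Finset.nonempty_iff_ne_empty.1 hAn hdis
  have : ({A, B} : Finset (Finset V)) ∈ packs (IsDominating G) (A ∪ B) := by
    rw [mem_packs]
    refine ⟨?_, ?_, ?_⟩
    · intro C hC
      simp only [Finset.mem_insert, Finset.mem_singleton] at hC
      rcases hC with rfl | rfl
      · exact Finset.subset_union_left
      · exact Finset.subset_union_right
    · intro C hC E hE hCE
      simp only [Finset.mem_insert, Finset.mem_singleton] at hC hE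
      rcases hC with rfl | rfl <;> rcases hE with rfl | rfl
      · exact absurd rfl hCE
      · exact hdis
      · exact hdis.symm
      · exact absurd rfl hCE
    · intro C hC
      simp only [Finset.mem_insert, Finset.mem_singleton] at hC
      rcases hC with rfl | rfl
      · exact hA
      · exact hB
  have := le_dn this
  rw [Finset.card_pair hne] at this
  omega

/-- a finpartition of `univ` with `m` parts as a colouring with `m` colours -/
lemma exists_coloring {m : ℕ} (P : Finpartition (univ : Finset V)) (hP : P.parts.card = m) :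
    ∃ c : V → Fin m, ∀ i, cl c i ∈ P.parts := by
  have e : P.parts ≃ Fin m := Finset.equivFinOfCardEq hP
  refine ⟨fun v => e ⟨P.part v, P.part_mem.2 (Finset.mem_univ v)⟩, fun i => ?_⟩
  have : cl (fun v => e ⟨P.part v, P.part_mem.2 (Finset.mem_univ v)⟩) i = (e.symm i).1 := by
    ext v
    rw [mem_cl]
    constructor
    · intro h
      have h' : (e.symm i).1 = P.part v := by rw [← h]; simp
      rw [h']
      exact P.mem_part (Finset.mem_univ v)
    · intro h
      have h' := P.part_eq_of_mem (e.symm i).2 h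
      have : (⟨P.part v, P.part_mem.2 (Finset.mem_univ v)⟩ : P.parts) = e.symm i :=
        Subtype.ext h'
      simp only [this, Equiv.apply_symm_apply]
  rw [this]
  exact (e.symm i).2

/-- merging the last classes of a family of `d` pairwise disjoint dominating sets covering
everything into `m ≤ d` classes -/
lemma merge_sum [Nonempty V] {G : SimpleGraph V} {m d : ℕ} (hm : 1 ≤ m) (hmd : m ≤ d)
    (E : V → Fin d) (hE : ∀ i, IsDominating G (cl E i)) :
    ∃ Q : V → Fin m, (∀ i, IsDominating G (cl Q i)) ∧
      d ≤ ∑ i, dn (IsDominating G) (cl Q i) := by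
  classical
  have hlast : m - 1 < m := by omega
  set r : Fin d → Fin m := fun j => if h : j.1 < m then ⟨j.1, h⟩ else ⟨m - 1, hlast⟩ with hr
  have hrs : ∀ i : Fin m, r ⟨i.1, lt_of_lt_of_le i.2 hmd⟩ = i := by
    intro i; simp [hr]
  set Q : V → Fin m := fun v => r (E v) with hQ
  have hsub : ∀ j : Fin d, cl E j ⊆ cl Q (r j) := by
    intro j v hv
    rw [mem_cl] at hv ⊢
    rw [hQ]; simp only; rw [hv]
  refine ⟨Q, ?_, ?_⟩
  · intro i
    have := isDominating_mono G _ _ (hsub ⟨i.1, lt_of_lt_of_le i.2 hmd⟩) (hE _)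
    rwa [hrs] at this
  · have key : ∀ i : Fin m, (univ.filter (fun j => r j = i)).card ≤
        dn (IsDominating G) (cl Q i) := by
      intro i
      have hinj : Function.Injective (fun j => cl E j) := by
        intro a b hab
        have hne : (cl E a).Nonempty := by
          rw [Finset.nonempty_iff_ne_empty]
          intro h
          have := hE a
          rw [h] at this
          exact not_isDominating_empty G this
        obtain ⟨x, hx⟩ := hne
        have hx2 : x ∈ cl E b := by
          have : cl E a = cl E b := hab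
          rw [← this]; exact hx
        rw [mem_cl] at hx hx2
        exact hx.symm.trans hx2
      rw [← Finset.card_image_of_injective _ hinj]
      apply le_dn
      rw [mem_packs]
      refine ⟨?_, ?_, ?_⟩
      · intro A hA
        rw [Finset.mem_image] at hA
        obtain ⟨j, hj, rfl⟩ := hA
        rw [Finset.mem_filter] at hj
        rw [← hj.2]
        exact hsub j
      · intro A hA B hB hne
        rw [Finset.mem_image] at hA hB
        obtain ⟨j, hj, rfl⟩ := hA
        obtain ⟨l, hl, rfl⟩ := hB
        rw [Finset.disjoint_left]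
        intro x hx hx'
        rw [mem_cl] at hx hx'
        apply hne
        rw [hx.symm.trans hx']
      · intro A hA
        rw [Finset.mem_image] at hA
        obtain ⟨j, hj, rfl⟩ := hA
        exact hE j
    calc d = (univ : Finset (Fin d)).card := by simp
      _ = ∑ i : Fin m, (univ.filter (fun j => r j = i)).card :=
          Finset.card_eq_sum_card_fiberwise (fun _ _ => Finset.mem_coe.2 (Finset.mem_univ _))
      _ ≤ _ := Finset.sum_le_sum (fun i _ => key i)

/-- **Interpolation.**  If `V(G)` has a partition into `m` indivisible dominating sets and a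
partition into `d` dominating sets, then it has a partition into exactly `k` indivisible dominating
sets for every `m ≤ k ≤ d`. -/
theorem interpolate [Nonempty V] (G : SimpleGraph V) {m d k : ℕ}
    (P : Finpartition (univ : Finset V)) (hPm : P.parts.card = m)
    (hP : ∀ D ∈ P.parts, IsIndivisible G D)
    (E : Finpartition (univ : Finset V)) (hEd : E.parts.card = d)
    (hE : ∀ D ∈ E.parts, IsDominating G D) (hmk : m ≤ k) (hkd : k ≤ d) :
    ∃ R : Finpartition (univ : Finset V), R.parts.card = k ∧ ∀ D ∈ R.parts, IsIndivisible G D := by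
  classical
  have hm1 : 1 ≤ m := by
    rw [← hPm, Nat.one_le_iff_ne_zero, Finset.card_ne_zero]
    obtain ⟨v⟩ := (inferInstance : Nonempty V)
    exact ⟨_, P.part_mem.2 (Finset.mem_univ v)⟩
  obtain ⟨cP, hcP⟩ := exists_coloring P hPm
  obtain ⟨cE, hcE⟩ := exists_coloring E hEd
  obtain ⟨Q, hQ, hQs⟩ := merge_sum hm1 (hmk.trans hkd) cE (fun i => hE _ (hcE i))
  obtain ⟨Q', hQ', hsum⟩ := walk (isDominating_mono G) cP
    (fun i => dn_le_one_of_indivisible (hP _ (hcP i))) hmk _ Q le_rfl hQ (hkd.trans hQs)
  choose R hR1 hR2 hR3 hR4 hR5 using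
    fun i => exists_refine (isDominating_mono G) (not_isDominating_empty G) (hQ' i)
  have hne : ∀ i, ∀ D ∈ R i, D.Nonempty := by
    intro i D hD
    rw [Finset.nonempty_iff_ne_empty]
    rintro rfl
    exact not_isDominating_empty G (hR5 i _ hD).1
  have hcol : ∀ i, ∀ D ∈ R i, ∀ x ∈ D, Q' x = i := by
    intro i D hD x hx
    exact mem_cl.1 (hR2 i D hD hx)
  refine ⟨Finpartition.ofExistsUnique (univ.biUnion R) (fun _ _ => Finset.subset_univ _) ?_ ?_,
    ?_, ?_⟩
  · intro x _
    obtain ⟨D, hD, hx⟩ := hR4 (Q' x) x (mem_cl.2 rfl)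
    refine ⟨D, ⟨Finset.mem_biUnion.2 ⟨Q' x, Finset.mem_univ _, hD⟩, hx⟩, ?_⟩
    rintro D' ⟨hD', hx'⟩
    rw [Finset.mem_biUnion] at hD'
    obtain ⟨i, _, hD'⟩ := hD'
    have hi : Q' x = i := hcol i D' hD' x hx'
    subst hi
    by_contra hne'
    exact Finset.disjoint_left.1 (hR3 _ D' hD' D hD hne') hx' hx
  · intro h
    rw [Finset.mem_biUnion] at h
    obtain ⟨i, _, h⟩ := h
    exact Finset.not_nonempty_empty (hne i _ h)
  · show (univ.biUnion R).card = k
    rw [Finset.card_biUnion, ← hsum]
    · exact Finset.sum_congr rfl (fun i _ => hR1 i)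
    · intro i _ j _ hij
      show Disjoint (R i) (R j)
      rw [Finset.disjoint_left]
      intro D hD hD'
      obtain ⟨x, hx⟩ := hne i D hD
      exact hij ((hcol i D hD x hx).symm.trans (hcol j D hD' x hx))
  · intro D hD
    have hD : D ∈ univ.biUnion R := hD
    rw [Finset.mem_biUnion] at hD
    obtain ⟨i, _, hD⟩ := hD
    exact indivisible_of_dn_one (hR5 i D hD).1 (hR5 i D hD).2

/-- **Affirmative answer to Q1 of MP_a3f2aa_co.**  For every finite simple graph `G` with nonempty
vertex set and every `k` with `ad(G) ≤ k ≤ d(G)` there is a partition of `V(G)` into exactly `k`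
indivisible dominating sets. -/
theorem result {V : Type*} [Fintype V] [DecidableEq V] [Nonempty V] (G : SimpleGraph V) (k : ℕ)
    (h1 : adomatic G ≤ k) (h2 : k ≤ domatic G) :
    ∃ P : Finpartition (univ : Finset V), P.parts.card = k ∧ ∀ D ∈ P.parts, IsIndivisible G D := by
  classical
  have hbdd : BddAbove {m | ∃ P : Finpartition (univ : Finset V), P.parts.card = m ∧
      ∀ D ∈ P.parts, IsDominating G D} := by
    refine ⟨Fintype.card V, ?_⟩
    rintro m ⟨P, rfl, -⟩
    exact P.card_parts_le_card
  have huniv : IsDominating G univ := fun v hv => absurd (Finset.mem_univ v) hv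
  have hne : {m | ∃ P : Finpartition (univ : Finset V), P.parts.card = m ∧
      ∀ D ∈ P.parts, IsDominating G D}.Nonempty := by
    refine ⟨_, Finpartition.indiscrete (Finset.univ_nonempty.ne_empty), rfl, ?_⟩
    intro D hD
    rw [Finpartition.indiscrete_parts, Finset.mem_singleton] at hD
    rw [hD]; exact huniv
  obtain ⟨E, hEd, hE⟩ := Nat.sSup_mem hne hbdd
  -- the set of orders of partitions into indivisible dominating sets is nonempty
  obtain ⟨R, hR1, hR2, hR3, hR4, hR5⟩ :=
    exists_refine (isDominating_mono G) (not_isDominating_empty G) huniv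
  have hne2 : {m | ∃ P : Finpartition (univ : Finset V), P.parts.card = m ∧
      ∀ D ∈ P.parts, IsIndivisible G D}.Nonempty := by
    refine ⟨_, Finpartition.ofExistsUnique R (fun _ _ => Finset.subset_univ _) ?_ ?_, rfl, ?_⟩
    · intro x hx
      obtain ⟨D, hD, hxD⟩ := hR4 x hx
      refine ⟨D, ⟨hD, hxD⟩, ?_⟩
      rintro D' ⟨hD', hx'⟩
      by_contra hne'
      exact Finset.disjoint_left.1 (hR3 D' hD' D hD hne') hx' hxD
    · intro h
      exact not_isDominating_empty G (hR5 _ h).1
    · intro D hD
      exact indivisible_of_dn_one (hR5 D hD).1 (hR5 D hD).2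
  obtain ⟨P, hPm, hP⟩ := Nat.sInf_mem hne2
  exact interpolate G P hPm hP E hEd hE h1 h2

end Pool.Agent.Results.MP_a3f2aa_co.Interpolation
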